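import Pool.Agent.Lib.MP_fe8c60_co.Defs
import Pool.Agent.Lib.MP_fe8c60_co.Proof

namespace Pool.Agent.Results.MP_fe8c60_co.ClawFreeUnbounded

open Pool.Agent.Lib.MP_fe8c60_co

/-- For every `k` there is a finite claw-free graph with no EPG representation using at most `k`
bends per vertex, i.e. with bend-number greater than `k`. -/
theorem result (k : ℕ) :
    ∃ (n : ℕ) (G : SimpleGraph (Fin n)), ClawFree G ∧ ¬ HasEPG G k :=
  main k

end Pool.Agent.Results.MP_fe8c60_co.ClawFreeUnbounded
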